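import Pool.Agent.MWA.Stmts

namespace Pool.Agent.MWA.H1

open Pool.Agent.Helper14_MV Pool.Agent.Helper2_MV Pool.Agent.MVO Pool.Agent.MWL Pool.Agent.MWS
open Pool.Agent.MWA

theorem spm : SpmStmt := by
  intro k a i
  have hmem : ∀ j, j ∈ sp k a ↔ j ≤ k ∧ a j ≠ 0 := by
    intro j
    unfold sp
    rw [Finset.mem_filter, Finset.mem_range]
    exact ⟨fun h => ⟨Nat.lt_succ_iff.mp h.1, h.2⟩, fun h => ⟨Nat.lt_succ_iff.mpr h.1, h.2⟩⟩
  constructor
  · rintro ⟨hi, ha, hl⟩
    have him : i ∈ sp k a := (hmem i).mpr ⟨hi, ha⟩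
    refine le_antisymm ?_ (Finset.le_max him)
    refine Finset.sup_le ?_
    intro j hj
    have hj' := (hmem j).mp hj
    have : j ≤ i := by
      by_contra hc
      exact hj'.2 (hl j (not_le.mp hc) hj'.1)
    exact WithBot.coe_le_coe.mpr this
  · intro h
    have him : i ∈ sp k a := Finset.mem_of_max h
    obtain ⟨h1, h2⟩ := (hmem i).mp him
    refine ⟨h1, h2, ?_⟩
    intro j hij hjk
    by_contra hc
    have hj : j ∈ sp k a := (hmem j).mpr ⟨hjk, hc⟩
    have h3 := Finset.le_max hj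
    rw [h] at h3
    have h4 : j ≤ i := WithBot.coe_le_coe.mp h3
    omega

end Pool.Agent.MWA.H1
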